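import Pool.Agent.H88.S6F.Frm
import Pool.Agent.H97.S6.H4R
import Pool.Agent.H64.KS6.WfeC
import Pool.Agent.H90.S6R.ActL

/-!
# Falling: frames, visibility and activity, one family
-/

set_option autoImplicit false

namespace Pool.S6C

open Finset Real
open Pool.Agent.H49.Ent Pool.Agent.H32.Dense Pool.STK Pool.KA Pool.KSAT Pool.K2S Pool.PB Pool.KS6
  Pool.Sel51 Pool.FALL Pool.S6N

variable {J : ℕ} {F : Fam 3 J} {A : F.Ω → Prop} {σ : Fin 3 → Fin 3} {N w₀ Δ r V₀ H X Va Rt Pu PN : ℕ}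
  {a t : ℕ → F.Ω → ℝ} {s a' t' al nu kk bb : F.Ω → ℝ}

theorem FFr.frg (h : FFr F A σ N w₀ Δ r V₀ H X Va Rt Pu PN a t s a' t' al nu kk bb) {i : ℕ}
    (hi : i ≤ N) : Frg F A (fw w₀ Δ i) (fv V₀ r i) H 4 (a i) s (t i) a' s t' := by
  refine ⟨h.fn i hi, h.ga i hi, Or.inl fun _ => rfl, h.gti i hi, h.ca i hi, fun ω _ => ?_,
    fun ω hω => ?_⟩
  · rw [sub_self, abs_zero]
    positivity
  · rw [sub_self, zero_mul, add_zero]
    exact h.ct i hi ω hω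

theorem fv_le (V₀ r : ℕ) {i N : ℕ} (hi : i ≤ N) : fv V₀ r i ≤ fv V₀ r N := by
  unfold fv
  have := Nat.mul_le_mul_right r hi
  omega

theorem fw_le (w₀ Δ : ℕ) {i N : ℕ} (hi : i ≤ N) : fw w₀ Δ i ≤ fw w₀ Δ N := by
  unfold fw
  have := Nat.mul_le_mul_right Δ hi
  omega

/-- The normal form of the exact frame is bounded. -/
theorem FFr.t5 (h : FFr F A σ N w₀ Δ r V₀ H X Va Rt Pu PN a t s a' t' al nu kk bb) {ω : F.Ω}
    (hω : A ω) : |t' ω| ≤ 5 := by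
  have h1 := (h.bd ω hω).2.2
  have h2 : (1 : ℝ) / 2 ^ (H + X) ≤ 1 := by
    rw [div_le_one (by positivity)]
    exact one_le_pow₀ (by norm_num)
  linarith

/-- **Visibility.** -/
theorem FFr.vis (h : FFr F A σ N w₀ Δ r V₀ H X Va Rt Pu PN a t s a' t' al nu kk bb) {q i : ℕ}
    (hi : i ≤ N) (h1 : q + fv V₀ r N ≤ Pu) (h2 : q + (fv V₀ r N + H) ≤ PN) :
    Vis F A σ q (fv V₀ r i) H 0 11 a' s t' := by
  have hV := fv_le V₀ r hi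
  have pw : ∀ {x : ℝ} {m n : ℕ}, 0 ≤ x → m ≤ n → x / (2 : ℝ) ^ n ≤ x / 2 ^ m := fun hx hmn =>
    div_le_div_of_nonneg_left hx (by positivity) (pow_le_pow_right₀ (by norm_num) hmn)
  have key : ∀ (k x : ℝ) (n m : ℕ), |k| ≤ 4 / 2 ^ n → |x| ≤ 1 / 2 ^ q → m ≤ n + q →
      |k * x| ≤ 4 / 2 ^ m := by
    intro k x n m hk hx hm
    rw [abs_mul]
    calc |k| * |x| ≤ 4 / 2 ^ n * (1 / 2 ^ q) :=
          mul_le_mul hk hx (abs_nonneg _) (by positivity)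
      _ = 4 / 2 ^ (n + q) := by
          rw [pow_add]
          field_simp
      _ ≤ _ := pw (by norm_num) hm
  have dir : ∀ ω ω', pq F (σ 0) q ω = pq F (σ 0) q ω' →
      |F.d ω (σ 0) - F.d ω' (σ 0)| ≤ 1 / 2 ^ q := fun ω ω' e => floor_close (pq_ext e).1
  refine ⟨?_, ?_, ?_, ?_⟩
  · intro ω ω' hω hω' e
    obtain ⟨g1, g2, g3, -⟩ := h.fp ω ω' hω hω' e
    exact ⟨g1, g2, g3⟩
  · intro ω hω i j
    obtain ⟨b1, b2, b3⟩ := h.bd ω hω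
    have b1' : |a' ω| ≤ 5 := by linarith
    have b2' : |s ω| ≤ 5 := by linarith
    have b3' := h.t5 hω
    have := Pool.S6K.Wfe.tfr_le σ (by norm_num : (0 : ℝ) ≤ 5) b1' b2' b3' i j
    unfold fr
    linarith
  · intro ω ω' hω hω' e
    obtain ⟨g1, g2, g3, g4, g5, g6, g7⟩ := h.fp ω ω' hω hω' (pq_ext e).2.2.2.2
    show |mco (tfr σ (a' ω) (s ω) (t' ω)) (F.d ω) 1 -
      mco (tfr σ (a' ω) (s ω) (t' ω)) (F.d ω') 1| ≤ _
    rw [Box.mco_tfr1, Box.mco_tfr1, add_zero]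
    have k1 := h.on1 ω hω
    have k2 := h.on1 ω' hω'
    rw [← g4, ← g5] at k2
    have k3 := key (al ω - a' ω) (F.d ω (σ 0) - F.d ω' (σ 0)) (fv V₀ r N) (q + fv V₀ r i)
      (h.an1 ω hω) (dir ω ω' e) (by omega)
    have k4 := pw (x := 1) (by norm_num) (show q + fv V₀ r i ≤ Pu by omega)
    have e1 : F.d ω (σ 1) - a' ω * F.d ω (σ 0) - (F.d ω' (σ 1) - a' ω * F.d ω' (σ 0)) =
        (F.d ω (σ 1) - al ω * F.d ω (σ 0) - nu ω) -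
          (F.d ω' (σ 1) - al ω * F.d ω' (σ 0) - nu ω) +
          (al ω - a' ω) * (F.d ω (σ 0) - F.d ω' (σ 0)) := by ring
    have e2 : (11 : ℝ) / 2 ^ (q + fv V₀ r i) = 1 / 2 ^ (q + fv V₀ r i) +
        1 / 2 ^ (q + fv V₀ r i) + 4 / 2 ^ (q + fv V₀ r i) + 5 / 2 ^ (q + fv V₀ r i) := by ring
    have e3 : (0 : ℝ) ≤ 5 / 2 ^ (q + fv V₀ r i) := by positivity
    rw [e1, e2]
    rw [abs_le] at k1 k2 k3 ⊢
    constructor <;> linarith [k1.1, k1.2, k2.1, k2.2, k3.1, k3.2]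
  · intro ω ω' hω hω' e
    obtain ⟨g1, g2, g3, g4, g5, g6, g7⟩ := h.fp ω ω' hω hω' (pq_ext e).2.2.2.2
    show |mco (tfr σ (a' ω) (s ω) (t' ω)) (F.d ω) 2 -
      mco (tfr σ (a' ω) (s ω) (t' ω)) (F.d ω') 2| ≤ _
    rw [Box.mco_tfr2, Box.mco_tfr2, add_zero]
    have k1 := h.on2 ω hω
    have k2 := h.on2 ω' hω'
    rw [← g2, ← g6, ← g7] at k2
    have k3 := key (kk ω - t' ω) (F.d ω (σ 0) - F.d ω' (σ 0)) (fv V₀ r N + H + X)
      (q + (fv V₀ r i + H)) (h.an2 ω hω) (dir ω ω' e) (by omega)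
    have k4 := pw (x := 1) (by norm_num) (show q + (fv V₀ r i + H) ≤ PN by omega)
    have e1 : F.d ω (σ 2) - s ω * F.d ω (σ 1) - t' ω * F.d ω (σ 0) -
        (F.d ω' (σ 2) - s ω * F.d ω' (σ 1) - t' ω * F.d ω' (σ 0)) =
        (F.d ω (σ 2) - s ω * F.d ω (σ 1) - kk ω * F.d ω (σ 0) - bb ω) -
          (F.d ω' (σ 2) - s ω * F.d ω' (σ 1) - kk ω * F.d ω' (σ 0) - bb ω) +
          (kk ω - t' ω) * (F.d ω (σ 0) - F.d ω' (σ 0)) := by ring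
    have e2 : (11 : ℝ) / 2 ^ (q + (fv V₀ r i + H)) = 1 / 2 ^ (q + (fv V₀ r i + H)) +
        1 / 2 ^ (q + (fv V₀ r i + H)) + 4 / 2 ^ (q + (fv V₀ r i + H)) +
        5 / 2 ^ (q + (fv V₀ r i + H)) := by ring
    have e3 : (0 : ℝ) ≤ 5 / 2 ^ (q + (fv V₀ r i + H)) := by positivity
    rw [e1, e2]
    rw [abs_le] at k1 k2 k3 ⊢
    constructor <;> linarith [k1.1, k1.2, k2.1, k2.2, k3.1, k3.2]

/-- The constant of visibility. -/
noncomputable def cvis : ℝ := 3 * Real.log (2 * 4 + 1) +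
  2 * (3 * Real.log (2 * (3 * (4 + 4 ^ 2 + 1) * (2 * (3 * 11 + 11))) + 3))

/-- The context is visible. -/
theorem FFr.ctx_vis (h : FFr F A σ N w₀ Δ r V₀ H X Va Rt Pu PN a t s a' t' al nu kk bb) {q i : ℕ}
    (hi : i ≤ N) (h1 : q + fv V₀ r N ≤ Pu) (h2 : q + (fv V₀ r N + H) ≤ PN)
    (hQ : IsLaw (Pool.Agent.H49.Ent.cond F.p A True))
    (hP : q + (fv V₀ r i + H) + fw w₀ Δ i ≤ J) :
    CH (Pool.Agent.H49.Ent.cond F.p A True) (fun ω => (ctx F σ (fw w₀ Δ i) q (fv V₀ r i) H (a i) s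
      (t i) ω, gt F a' s t' ω)) (pq F (σ 0) q) ≤ cvis := by
  have key := CH_ctx_pt (F := F) (σ := σ) (h.frg hi) (h.vis hi h1 h2) (by norm_num) (by norm_num)
    hQ (by omega) hP
  unfold cvis
  exact key

/-- **Activity in a context.** -/
theorem FFr.act (h : FFr F A σ N w₀ Δ r V₀ H X Va Rt Pu PN a t s a' t' al nu kk bb) {q i : ℕ}
    (hi : i ≤ N) (h1 : q + fv V₀ r N ≤ Pu) (h2 : q + (fv V₀ r N + H) ≤ PN)
    (hQ : IsLaw (Pool.Agent.H49.Ent.cond F.p A True))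
    (hP : q + (fv V₀ r i + H) + fw w₀ Δ i ≤ J) (Y : ℕ) :
    CH (Pool.Agent.H49.Ent.cond F.p A True) (fun ω => ⌊(2 : ℝ) ^ (q + Y) * F.d ω (σ 0)⌋)
      (pq F (σ 0) q) ≤
    CH (Pool.Agent.H49.Ent.cond F.p A True)
      (Uni.dg Y (om F σ q (fv V₀ r i) H Y (a i) s (t i) 0))
      (ctx F σ (fw w₀ Δ i) q (fv V₀ r i) H (a i) s (t i)) + cvis := by
  have s5 := h.ctx_vis hi h1 h2 hQ hP
  obtain ⟨p, hp'⟩ : ∃ p, p = Pool.Agent.H49.Ent.cond F.p A True := ⟨_, rfl⟩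
  rw [← hp'] at hQ s5 ⊢
  have h0 := hQ.nonneg
  obtain ⟨O, hO⟩ : ∃ f, f = om F σ q (fv V₀ r i) H Y (a i) s (t i) 0 := ⟨_, rfl⟩
  obtain ⟨Cn, hCn⟩ : ∃ f, f = ctx F σ (fw w₀ Δ i) q (fv V₀ r i) H (a i) s (t i) := ⟨_, rfl⟩
  obtain ⟨W, hW⟩ : ∃ f, f = pq F (σ 0) q := ⟨_, rfl⟩
  rw [← hCn, ← hW] at s5 ⊢
  rw [← hO]
  have s7 : CH p (fun ω => ⌊(2 : ℝ) ^ (q + Y) * F.d ω (σ 0)⌋) W ≤ CH p (Uni.dg Y O) W := by
    refine CH_mono_left h0 ?_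
    intro ω ω' _ _ hh
    have h1 := Prod.ext_iff.mp hh
    have h2 : W ω = W ω' := h1.2
    rw [hW] at h2
    have h2' := (pq_ext h2).1
    have e1 : ∀ o, Uni.dg Y O o = ⌊(2 : ℝ) ^ Y * Int.fract ((2 : ℝ) ^ q * F.d o (σ 0))⌋ := by
      intro o
      rw [hO]
      rw [show Uni.dg Y (om F σ q (fv V₀ r i) H Y (a i) s (t i) 0) o =
        (blk F σ (fw w₀ Δ i) q (fv V₀ r i) H Y (a i) s (t i) o).2 0 from dg_om 0 o]
      change ⌊(2 : ℝ) ^ Y * Int.fract ((2 : ℝ) ^ q *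
        mco (tfr σ (a i o) (s o) (t i o)) (F.d o) 0)⌋ = _
      rw [Box.mco_tfr0]
    have h3 : Uni.dg Y O ω = Uni.dg Y O ω' := h1.1
    rw [e1, e1] at h3
    exact Box.fract_lift h2' h3
  have s8 := CH_le_add h0 (Uni.dg Y O) Cn W
  have s9 : CH p (Uni.dg Y O) (fun ω => (Cn ω, W ω)) ≤ CH p (Uni.dg Y O) Cn :=
    CH_mono_cond h0 fun ω ω' _ _ h => (Prod.ext_iff.mp h).1
  have s10 : CH p Cn W ≤ CH p (fun ω => (Cn ω, gt F a' s t' ω)) W :=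
    CH_mono_left h0 fun ω ω' _ _ h => (Prod.ext_iff.mp (Prod.ext_iff.mp h).1).1
  linarith

/-- **The digits of the exact frame.** -/
theorem FFr.dig (h : FFr F A σ N w₀ Δ r V₀ H X Va Rt Pu PN a t s a' t' al nu kk bb) {q i : ℕ}
    (hi : i ≤ N) (hQ : IsLaw (Pool.Agent.H49.Ent.cond F.p A True)) :
    CH (Pool.Agent.H49.Ent.cond F.p A True) (fun ω => (a' ω, s ω, t' ω))
      (fun ω => (ctx F σ (fw w₀ Δ i) q (fv V₀ r i) H (a i) s (t i) ω, F.T ω)) ≤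
      (((Va - V₀ : ℕ) : ℝ) + ((Rt - (V₀ + H) : ℕ) : ℝ)) * Real.log 2 + 2 * Real.log 9 := by
  have hF := h.frg hi
  have hσ := h.bij.1
  have hA : ∀ ω, 0 < Pool.Agent.H49.Ent.cond F.p A True ω → A ω := fun ω hω =>
    of_eq_true ((cond_pos_iff F.isLaw.nonneg A True ω).1 hω).2
  have h0 := hQ.nonneg
  have hV := fv_le V₀ r hi
  have hva := h.va'
  have hrt := h.rt'
  have hV0 : V₀ ≤ fv V₀ r i := by
    unfold fv
    omega
  have c1 := CH_grid1 hQ a' (fun ω => (ctx F σ (fw w₀ Δ i) q (fv V₀ r i) H (a i) s (t i) ω, F.T ω))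
    (a i) (fun ω ω' _ _ h => (ctx_frm hσ (Prod.ext_iff.mp h).1).1)
    (show fv V₀ r i ≤ Va by omega)
    (by norm_num : (0 : ℝ) ≤ 4) h.ga' (fun ω hω => h.ca i hi ω (hA ω hω))
  have c3 := CH_grid1 hQ t' (fun ω => (ctx F σ (fw w₀ Δ i) q (fv V₀ r i) H (a i) s (t i) ω, F.T ω))
    (t i) (fun ω ω' _ _ h => (ctx_frm hσ (Prod.ext_iff.mp h).1).2.2)
    (show fv V₀ r i + H ≤ Rt by omega)
    (by norm_num : (0 : ℝ) ≤ 4) h.gt' (fun ω hω => h.ct i hi ω (hA ω hω))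
  have d1 := CH_subadd h0 a' (fun ω => (s ω, t' ω))
    (fun ω => (ctx F σ (fw w₀ Δ i) q (fv V₀ r i) H (a i) s (t i) ω, F.T ω))
  have d2 : CH (Pool.Agent.H49.Ent.cond F.p A True) (fun ω => (s ω, t' ω))
      (fun ω => (ctx F σ (fw w₀ Δ i) q (fv V₀ r i) H (a i) s (t i) ω, F.T ω)) ≤
      CH (Pool.Agent.H49.Ent.cond F.p A True) t'
      (fun ω => (ctx F σ (fw w₀ Δ i) q (fv V₀ r i) H (a i) s (t i) ω, F.T ω)) := by
    refine CH_mono_left h0 fun ω ω' _ _ hh => ?_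
    have e1 := Prod.ext_iff.mp hh
    have e2 := (ctx_frm hσ (Prod.ext_iff.mp e1.2).1).2.1
    exact Prod.ext e2 e1.1
  have e9 : (2 : ℝ) * 4 + 1 = 9 := by norm_num
  rw [e9] at c1 c3
  have n1 : ((Va - fv V₀ r i : ℕ) : ℝ) ≤ ((Va - V₀ : ℕ) : ℝ) := by
    exact_mod_cast (by omega : Va - fv V₀ r i ≤ Va - V₀)
  have n2 : ((Rt - (fv V₀ r i + H) : ℕ) : ℝ) ≤ ((Rt - (V₀ + H) : ℕ) : ℝ) := by
    exact_mod_cast (by omega : Rt - (fv V₀ r i + H) ≤ Rt - (V₀ + H))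
  have hl2 : 0 < Real.log 2 := Real.log_pos (by norm_num)
  have m1 := mul_le_mul_of_nonneg_right n1 hl2.le
  have m2 := mul_le_mul_of_nonneg_right n2 hl2.le
  rw [add_mul]
  linarith

end Pool.S6C
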