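import Pool.Agent.H23.S6E.Stmts2
import Pool.Agent.H21.FALL.Stmt

/-!
# Falling: the zone, the integer levels, and the frames

`Zof`: the numbers `rot`, `th`, `act` of the class are affine up to `e` in a zone of half-width `L`,
with room in all strict inequalities. `FLv`: the integer levels of the contexts of the falling case.
`FFr`: the frames of one family. `FFrStmt`: the frames exist, for all integer levels.
-/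

set_option autoImplicit false

namespace Pool.S6C

open Finset Real
open Pool.Agent.H49.Ent Pool.Agent.H32.Dense Pool.STK Pool.KA Pool.KSAT Pool.K2S Pool.PB Pool.KS6
  Pool.Sel51 Pool.FALL

/-- **The zone.** `wr = W g` is the window, `p₀ = P - g` the base velocity, `L` the half-width, `e`
the error, `G` the room. -/
structure Zof (σ : ℝ → Row) (act : ℚ → ℝ) (v₁ t : ℚ) (e₁ P g wr v₀ v ρ a₀ α L e G : ℝ) :
    Prop where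
  ρ0 : 0 < ρ
  vρ : ρ < v
  α0 : 0 < α
  e0 : 0 < e
  eL : 100 * e ≤ L
  LG : (10 + 4 * v) * L ≤ G
  /-- the numbers are affine near the window -/
  aff : ∀ q : ℚ, |(q : ℝ) - wr| ≤ L → |(σ 1).rot q - v₀ - v * (q - wr)| ≤ e ∧
    |(σ 1).th q - g - (1 + ρ) * (q - wr)| ≤ e
  act : ∀ q : ℚ, |(q : ℝ) - (P - g)| ≤ L → |act q - a₀ - α * (q - (P - g))| ≤ e
  /-- room -/
  g1 : (P - g) + v₀ + G < (σ 1).pi
  g2 : (P - g) + v₀ + G < 1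
  g3 : P - wr + G < (σ 1).sN v₁ t
  g4 : P - wr + G < t - v₁ + e₁
  g5 : P - g + G < e₁
  g6 : wr + G < v₁
  g7 : P + G < 1
  g8 : G < P - g
  g9 : G < wr
  g10 : G < v₀
  g11 : G < g - wr - v₀

/-- **The integer levels.** The windows are `w₀ + i Δ`, the precisions of the directions `V₀ + i r`,
of the normal forms `V₀ + i r + H`; `X` is the block. `ul` is the window of the left label, which
gives the slope `s`, and `us` the window of the right label. -/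
structure FLv (J N : ℕ) (g wr v₀ v ρ L e : ℝ) (ul us : ℚ) (w₀ Δ r V₀ H X : ℕ) : Prop where
  zl : (wr - L / 2) * J ≤ w₀
  zu : ((w₀ + N * Δ : ℕ) : ℝ) ≤ (wr + L / 2) * J
  ul0 : wr - L / 2 ≤ ul
  ul1 : (ul : ℝ) * J + e * J ≤ w₀
  us0 : ((w₀ + N * Δ : ℕ) : ℝ) + e * J ≤ us * J
  us1 : (us : ℝ) ≤ wr + L / 2
  XΔ : X ≤ Δ
  Xr : X ≤ r
  /-- the direction is known at the lowest window -/
  va : ((V₀ + N * r : ℕ) : ℝ) ≤ v₀ * J + v * (w₀ - wr * J) - 20 * e * J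
  /-- the normal forms are known at the windows, and not known to more digits -/
  rt : ∀ i ≤ N, ((V₀ + i * r + H : ℕ) : ℝ) ≤
    (g - wr) * J + ρ * (((w₀ + i * Δ : ℕ) : ℝ) - wr * J) - 20 * e * J
  rt' : ∀ i ≤ N, (g - wr) * J + ρ * (((w₀ + i * Δ : ℕ) : ℝ) - wr * J) - 30 * e * J ≤
    ((V₀ + i * r + H : ℕ) : ℝ)
  /-- the slope `s` is known at the left window -/
  hs : ((H + X : ℕ) : ℝ) ≤ (g - wr - v₀) * J + (ρ - v) * (ul - wr) * J - 50 * e * J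
  /-- the normal form to `X` more digits is known at the right window -/
  rs : ((V₀ + N * r + H + X : ℕ) : ℝ) ≤ (g - wr) * J + ρ * (us - wr) * J - 20 * e * J

/-- **The frames** of one family: the frames `(a i, s, t i)` of the windows, the exact frame
`(a', s, t')`, and the straightness `al`, `nu`, `kk`, `bb` of the fans at exact points. -/
structure FFr {J : ℕ} (F : Fam 3 J) (A : F.Ω → Prop) (σ : Fin 3 → Fin 3) (N w₀ Δ r V₀ H X : ℕ)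
    (Va Rt Pu PN : ℕ) (a t : ℕ → F.Ω → ℝ) (s a' t' al nu kk bb : F.Ω → ℝ) : Prop where
  bij : Function.Bijective σ
  /-- the frames of the windows -/
  fn : ∀ i ≤ N, ∀ ω ω', slam F (fw w₀ Δ i) ω = slam F (fw w₀ Δ i) ω' →
    a i ω = a i ω' ∧ s ω = s ω' ∧ t i ω = t i ω'
  ga : ∀ i ≤ N, ∀ ω, ∃ z : ℤ, a i ω = z / 2 ^ fv V₀ r i
  gti : ∀ i ≤ N, ∀ ω, ∃ z : ℤ, t i ω = z / 2 ^ (fv V₀ r i + H)
  ca : ∀ i ≤ N, ∀ ω, A ω → |a' ω - a i ω| ≤ 4 / 2 ^ fv V₀ r i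
  ct : ∀ i ≤ N, ∀ ω, A ω → |t' ω - t i ω| ≤ 4 / 2 ^ (fv V₀ r i + H)
  /-- the exact frame -/
  va' : fv V₀ r N ≤ Va
  rt' : fv V₀ r N + H + X ≤ Rt
  ga' : ∀ ω, ∃ z : ℤ, a' ω = z / 2 ^ Va
  gt' : ∀ ω, ∃ z : ℤ, t' ω = z / 2 ^ Rt
  bd : ∀ ω, A ω → |a' ω| ≤ 2 ∧ |s ω| ≤ 4 ∧ |t' ω| ≤ 4 + 1 / 2 ^ (H + X)
  fp : ∀ ω ω', A ω → A ω' → Fam.pt F ω = Fam.pt F ω' → a' ω = a' ω' ∧ s ω = s ω' ∧ t' ω = t' ω' ∧
    al ω = al ω' ∧ nu ω = nu ω' ∧ kk ω = kk ω' ∧ bb ω = bb ω'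
  /-- the fans at exact points -/
  on1 : ∀ ω, A ω → |F.d ω (σ 1) - al ω * F.d ω (σ 0) - nu ω| ≤ 1 / 2 ^ Pu
  on2 : ∀ ω, A ω → |F.d ω (σ 2) - s ω * F.d ω (σ 1) - kk ω * F.d ω (σ 0) - bb ω| ≤ 1 / 2 ^ PN
  an1 : ∀ ω, A ω → |al ω - a' ω| ≤ 4 / 2 ^ fv V₀ r N
  an2 : ∀ ω, A ω → |kk ω - t' ω| ≤ 4 / 2 ^ (fv V₀ r N + H + X)

/-- The exact frame is a function of the natural labels `zl` at the window `ul` (slope `s`) and `zs`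
at the window `us` (direction), and it is close to both at the natural precisions. -/
structure FNr {J : ℕ} (F : Fam 3 J) (A : F.Ω → Prop) (σ : Fin 3 → Fin 3) (σ' : ℝ → Row)
    (g wr v₀ v ρ e η : ℝ) (ul us : ℚ) (Va Rt : ℕ) (s a' t' : F.Ω → ℝ)
    (zl zs : F.Ω → Pln) : Prop where
  vb : (Va : ℝ) ≤ (v₀ + v * (us - wr) + 2 * e) * J
  rb : (Rt : ℝ) ≤ (g - wr + ρ * (us - wr) + 2 * e) * J
  nl : NL F A σ ⌊(ul : ℝ) * J⌋₊ ⌊((σ' 1).rot ul - η) * J⌋₊ ⌊((σ' 1).th ul - η) * J⌋₊ zl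
  ns : NL F A σ ⌊(us : ℝ) * J⌋₊ ⌊((σ' 1).rot us - η) * J⌋₊ ⌊((σ' 1).th us - η) * J⌋₊ zs
  fz : ∀ ω ω', A ω → A ω' → zs ω = zs ω' → zl ω = zl ω' → a' ω = a' ω' ∧ s ω = s ω' ∧ t' ω = t' ω'
  sl : ∀ ω, A ω → s ω = frs zl ω
  cl : ∃ E : ℝ, 1 ≤ E ∧ Real.log E ≤ (η + 10 * e) * J ∧
    Fcl F A ul ((ul : ℝ) + (σ' 1).rot ul) ((σ' 1).th ul) E zl a' s t' ∧
    Fcl F A us ((us : ℝ) + (σ' 1).rot us) ((σ' 1).th us) E zs a' s t'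

/-- **(FFR)** The frames of the falling case exist, for all integer levels. -/
def FFrStmt : Prop :=
  ∀ (S : PCl 3) (a R h₁ : ℝ) (i₀ : Fin 3) (c s₂ : ℝ) (r' : ℝ → ℝ) (D : Set ℝ) (σ : ℝ → Row),
    Cs S a R h₁ i₀ c s₂ r' D σ → ∀ (act : ℚ → ℝ) (K : Set ℝ) (W : ℝ → ℝ) (v₁ t : ℚ)
    (e₁ Q₀ P g v₀ v ρ a₀ α : ℝ), Loc S i₀ c s₂ r' D σ act K W v₁ t e₁ Q₀ P g v₀ v ρ a₀ α →
    ∀ L e G : ℝ, Zof σ act v₁ t e₁ P g (W g) v₀ v ρ a₀ α L e G → ∀ (N : ℕ) (ul us : ℚ) (η : ℝ),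
    0 < η → Clp S (fun J F A => ∀ (w₀ Δ r V₀ H X Pu PN : ℕ),
      FLv J N g (W g) v₀ v ρ L e ul us w₀ Δ r V₀ H X →
      (Pu : ℝ) ≤ ((P - g) + v₀ + G / 2) * J → (PN : ℝ) ≤ (P - W g + G / 2) * J →
      ∃ (Va Rt : ℕ) (sg : Fin 3 → Fin 3) (a t : ℕ → F.Ω → ℝ) (s a' t' al nu kk bb : F.Ω → ℝ)
        (zl zs : F.Ω → Pln), sg 0 = i₀ ∧
        FFr F A sg N w₀ Δ r V₀ H X Va Rt Pu PN a t s a' t' al nu kk bb ∧
        FNr F A sg σ g (W g) v₀ v ρ e η ul us Va Rt s a' t' zl zs)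

/-- **(TUR)** In the contexts of the falling case the exact normal form is not constant to `x J`
more digits. -/
def TurFStmt : Prop :=
  ∀ (S : PCl 3) (a R h₁ : ℝ) (i₀ : Fin 3) (c s₂ : ℝ) (r' : ℝ → ℝ) (D : Set ℝ) (σ : ℝ → Row),
    Cs S a R h₁ i₀ c s₂ r' D σ → ∀ (act : ℚ → ℝ) (v₁ t : ℚ) (e₁ P g wr v₀ v ρ a₀ α L e G : ℝ),
    Zof σ act v₁ t e₁ P g wr v₀ v ρ a₀ α L e G → ∀ (N : ℕ) (ul us : ℚ) (x ε : ℝ),
    200 * (1 + ρ) * e ≤ x → x ≤ L → 0 < ε →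
    Clp S (fun J F A => ∀ (w₀ Δ r V₀ H X Va Rt Pu PN : ℕ) (sg : Fin 3 → Fin 3)
      (a t : ℕ → F.Ω → ℝ) (s a' t' al nu kk bb : F.Ω → ℝ), sg 0 = i₀ →
      FLv J N g wr v₀ v ρ L e ul us w₀ Δ r V₀ H X →
      FFr F A sg N w₀ Δ r V₀ H X Va Rt Pu PN a t s a' t' al nu kk bb → fv V₀ r N ≤ Pu →
      fv V₀ r N + H + X ≤ PN → x * J ≤ X → ∀ i ≤ N, ∀ (q : ℕ) (y : ℝ), x * J ≤ y →
      Pool.KAF.Pr (dbl (Pool.Agent.H49.Ent.cond F.p A True)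
        (fun ω => (Pool.S6N.blk F sg (fw w₀ Δ i) q (fv V₀ r i) H X (a i) s (t i) ω,
          Pool.S6N.ctx F sg (fw w₀ Δ i) q (fv V₀ r i) H (a i) s (t i) ω)))
        {z | |Pool.S6N.SS (fv V₀ r i) H (a i) s (t i) s t' 0 z.1 -
            Pool.S6N.SS (fv V₀ r i) H (a i) s (t i) s t' 0 z.2| < (2 : ℝ) ^ (-y)} ≤ ε)

end Pool.S6C
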