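import Pool.Agent.H88.S6F.Frm

/-!
# Falling: the statements of the pieces of the class half
-/

set_option autoImplicit false

namespace Pool.S6C

open Finset Real
open Pool.Agent.H49.Ent Pool.Agent.H32.Dense Pool.STK Pool.KA Pool.KSAT Pool.K2S Pool.PB Pool.KS6
  Pool.Sel51 Pool.FALL

/-- **(ZOF)** The zone exists at all small scales. -/
def ZofStmt : Prop :=
  ∀ (S : PCl 3) (a R h₁ : ℝ) (i₀ : Fin 3) (c s₂ : ℝ) (r' : ℝ → ℝ) (D : Set ℝ) (σ : ℝ → Row),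
    Cs S a R h₁ i₀ c s₂ r' D σ → ∀ (act : ℚ → ℝ) (K : Set ℝ) (W : ℝ → ℝ) (v₁ t : ℚ)
    (e₁ Q₀ P g v₀ v ρ a₀ α : ℝ), Loc S i₀ c s₂ r' D σ act K W v₁ t e₁ Q₀ P g v₀ v ρ a₀ α →
    ρ < v → 0 < ρ → ∀ C ε : ℝ, 0 < C → 0 < ε → 100 * ε ≤ C → ∃ x₁ : ℝ, 0 < x₁ ∧
    ∀ x : ℝ, 0 < x → x ≤ x₁ →
      Zof σ act v₁ t e₁ P g (W g) v₀ v ρ a₀ α (C * x) (ε * x) ((10 + 4 * v) * (C * x))

/-- **(LEV)** The integer levels exist. -/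
def LevStmt : Prop :=
  ∀ (N : ℕ) (ρ v : ℝ), 0 < ρ → ρ < v → ∃ (Dn : ℕ) (C₀ : ℝ), 0 < Dn ∧ 1 ≤ C₀ ∧
    ∀ x e L g wr v₀ : ℝ, 0 < x → 0 < e → 1000 * (1 + ρ) * e ≤ x → C₀ * x ≤ L → L < wr → L < v₀ →
      L < g - wr - v₀ → ∃ (ul us : ℚ) (J₁ : ℕ), |(ul : ℝ) - wr| ≤ C₀ * x ∧
      |(us : ℝ) - wr| ≤ C₀ * x ∧ ∀ J ≥ J₁, ∃ w₀ r V₀ H : ℕ, (Dn : ℝ) ≤ C₀ ∧
      (r : ℝ) ≤ C₀ * ⌊x * J⌋₊ ∧
      FLv J N g wr v₀ v ρ L e ul us w₀ (Dn * ⌊x * J⌋₊) r V₀ H ⌊x * J⌋₊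

/-- The straightness of the fans used in the falling case. -/
noncomputable def fPu (P g v₀ G : ℝ) (J : ℕ) : ℕ := ⌊((P - g) + v₀ + G / 2) * J⌋₊

/-- The straightness in the direction of the normals used in the falling case. -/
noncomputable def fPN (P wr G : ℝ) (J : ℕ) : ℕ := ⌊(P - wr + G / 2) * J⌋₊

/-- **(WFE)** The position along the fans is full given the context and the time. -/
def WfeFStmt : Prop :=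
  ∀ (S : PCl 3) (a R h₁ : ℝ) (i₀ : Fin 3) (c s₂ : ℝ) (r' : ℝ → ℝ) (D : Set ℝ) (σ : ℝ → Row),
    Cs S a R h₁ i₀ c s₂ r' D σ → ∀ (act : ℚ → ℝ) (v₁ t : ℚ) (e₁ P g wr v₀ v ρ a₀ α L e G : ℝ),
    ActN S i₀ act → (∀ q q' : ℚ, 0 ≤ q → q ≤ q' → q' ≤ 1 → act q ≤ act q') →
    Zof σ act v₁ t e₁ P g wr v₀ v ρ a₀ α L e G → ∀ (N : ℕ) (ul us : ℚ) (ι x : ℝ),
    0 < ι → 0 < x → (2 + ι) * x ≤ L / 4 → 16 * e ≤ α * ι * x →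
    Clp S (fun J F A => ∀ (w₀ Δ r V₀ H X Va Rt : ℕ) (sg : Fin 3 → Fin 3)
      (a t : ℕ → F.Ω → ℝ) (s a' t' al nu kk bb : F.Ω → ℝ), sg 0 = i₀ →
      FLv J N g wr v₀ v ρ L e ul us w₀ Δ r V₀ H X → (X : ℝ) ≤ x * J →
      FFr F A sg N w₀ Δ r V₀ H X Va Rt (fPu P g v₀ G J) (fPN P wr G J) a t s a' t' al nu kk bb →
      ∀ i ≤ N, ∀ q : ℕ, |(q : ℝ) - (P - g) * J| ≤ L / 2 * J →
      X * Real.log 2 - ι * x * J ≤ CH (Pool.Agent.H49.Ent.cond F.p A True)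
        (fun ω => ⌊(2 : ℝ) ^ (q + fw w₀ Δ i + X) * F.x ω (sg 0)⌋)
        (fun ω => (Pool.S6N.ctx F sg (fw w₀ Δ i) q (fv V₀ r i) H (a i) s (t i) ω, F.T ω)))

/-- **(ROW)** The rows of the normal position are not full, on large events, in the static boxes,
up to a loss with a bounded sum along a progression of the base velocities. The constant `C₁` of the
loss does not depend on the half-width of the zone. -/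
def RowFStmt : Prop :=
  ∀ (S : PCl 3) (a R h₁ : ℝ) (i₀ : Fin 3) (c s₂ : ℝ) (r' : ℝ → ℝ) (D : Set ℝ) (σ : ℝ → Row),
    Cs S a R h₁ i₀ c s₂ r' D σ → ∀ (act : ℚ → ℝ) (K : Set ℝ) (W : ℝ → ℝ) (v₁ t : ℚ)
    (e₁ Q₀ P g v₀ v ρ a₀ α : ℝ), Loc S i₀ c s₂ r' D σ act K W v₁ t e₁ Q₀ P g v₀ v ρ a₀ α →
    ρ < v → 0 < ρ → ∀ (N : ℕ) (Cw κ ϖ δ : ℝ), 1 ≤ Cw → 0 < κ → κ ≤ 1 → 0 < ϖ → 0 < δ →
    ∃ C₁ : ℝ, 0 < C₁ ∧ ∀ C : ℝ, 0 < C → ∃ ε₀ x₁ : ℝ, 0 < ε₀ ∧ 0 < x₁ ∧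
    ∀ (x L e G : ℝ), 0 < x → x ≤ x₁ → L ≤ C * x → 0 < e → e ≤ ε₀ * x →
    Zof σ act v₁ t e₁ P g (W g) v₀ v ρ a₀ α L e G → ∀ ul us : ℚ,
    |(ul : ℝ) - W g| ≤ Cw * x → |(us : ℝ) - W g| ≤ Cw * x → ∃ η : ℝ, 0 < η ∧
    Clp S (fun J F A => ∀ (w₀ Δ r V₀ H X Va Rt : ℕ) (sg : Fin 3 → Fin 3)
      (a t : ℕ → F.Ω → ℝ) (s a' t' al nu kk bb : F.Ω → ℝ) (zl zs : F.Ω → Pln), sg 0 = i₀ →
      FLv J N g (W g) v₀ v ρ L e ul us w₀ Δ r V₀ H X → X = ⌊x * J⌋₊ → (Δ : ℝ) ≤ Cw * X →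
      (r : ℝ) ≤ Cw * X →
      FFr F A sg N w₀ Δ r V₀ H X Va Rt (fPu P g v₀ G J) (fPN P (W g) G J) a t s a' t' al nu kk
        bb →
      FNr F A sg σ g (W g) v₀ v ρ e η ul us Va Rt s a' t' zl zs →
      ∃ (X' : ℕ) (loss : ℕ → ℝ), 0 < X' ∧ (X' : ℝ) ≤ C₁ * X ∧ (∀ q, 0 ≤ loss q) ∧
      (∀ qb n : ℕ, |(qb : ℝ) - (P - g) * J| ≤ L / 2 * J →
        |((qb + n * X' : ℕ) : ℝ) - (P - g) * J| ≤ L / 2 * J →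
        ∑ m ∈ range n, loss (qb + m * X') ≤ C₁ * X) ∧
      ∀ i ≤ N, ∀ q : ℕ, |(q : ℝ) - (P - g) * J| ≤ L / 2 * J → ∀ j : ℕ,
      (j + 1) * ⌊κ * X⌋₊ ≤ X → ∀ E : F.Ω → Prop,
      ϖ ≤ Pe (Pool.Agent.H49.Ent.cond F.p A True) E →
      CH (Pool.Agent.H49.Ent.cond (Pool.Agent.H49.Ent.cond F.p A True) E True)
        (F.sbx sg (q + fw w₀ Δ i) (q + fv V₀ r i + fw w₀ Δ i)
          (q + (fv V₀ r i + H) + fw w₀ Δ i + (j + 1) * ⌊κ * X⌋₊) a' s t')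
        (fun ω => (F.sbx sg (q + fw w₀ Δ i) (q + fv V₀ r i + fw w₀ Δ i)
          (q + (fv V₀ r i + H) + fw w₀ Δ i + j * ⌊κ * X⌋₊) a' s t' ω, F.W ω)) ≤
        (1 - c) * ⌊κ * X⌋₊ * Real.log 2 + δ * X + loss q)

end Pool.S6C
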