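import Pool.Agent.H88.S6F.Fall
import Pool.Agent.H36.S6.Act2

/-!
# Falling: the velocities are active
-/

set_option autoImplicit false

namespace Pool.S6C

open Finset Real
open Pool.Agent.H49.Ent Pool.Agent.H32.Dense Pool.STK Pool.KA Pool.KSAT Pool.K2S Pool.PB Pool.KS6
  Pool.Sel51 Pool.FALL

/-- **(ACTF)**, by `FFr.act` and `act_pq`. -/
theorem act_f : ActFStmt := by
  intro S a₁ R₁ h₁ i₀ c s₂ r' D σ hC act v₁ t₁ e₁ P g wr v₀ v ρ a₀ α L e G hA hmono hZ N ul us x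
    hx hex
  have hl2 : 0 < Real.log 2 := Real.log_pos (by norm_num)
  have hpos : ∀ (τ : ℝ) (J : ℕ) (F : Fam 3 J) (A : F.Ω → Prop), S.St τ J F A → 0 < Pe F.p A := by
    intro τ J F A h
    obtain ⟨-, -, -, h4⟩ := hC.st τ J F A h
    exact lt_of_lt_of_le (Real.exp_pos _) h4
  have hα := hZ.α0
  have hlip := fun q q' h0 h1 h2 => actN_lip hC.ne hpos hA q q' h0 h1 h2
  have hh : 0 < α * x * Real.log 2 / 16 := by positivity
  have h1 := act_int hpos hA hmono hlip (h := α * x * Real.log 2 / 16) hh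
  obtain ⟨J₁, hJ₁⟩ := exists_nat_gt (cvis / (α * x * Real.log 2 / 16))
  have hlaw : Clp S (fun _ F A => 0 < Pe F.p A) :=
    Clp.of one_pos 0 fun J _ F A hA => hpos 1 J F A hA
  refine Clp.mono (J₂ := max J₁ 1) (hlaw.and h1) ?_
  rintro J hJ F A ⟨hPA, hg⟩ w₀ Δ r V₀ H X Va Rt Pu PN sg a t s a' t' al nu kk bb hsg hV hF hxX i
    hi q hqa hqb hPu hPN
  have hl := isLaw_cond F.isLaw hPA
  have hJ1 : J₁ ≤ J := (le_max_left _ _).trans hJ
  have hJ2 : 1 ≤ J := (le_max_right _ _).trans hJ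
  have hJ0 : (0 : ℝ) < J := by exact_mod_cast hJ2
  have hK : cvis ≤ α * x * Real.log 2 / 16 * J := by
    have h2 : cvis / (α * x * Real.log 2 / 16) < J := hJ₁.trans_le (by exact_mod_cast hJ1)
    rw [div_lt_iff₀ hh] at h2
    linarith only [h2]
  -- the levels
  have hX0 : (0 : ℝ) ≤ X := Nat.cast_nonneg _
  have hL0 : 0 < L := hZ.L0
  have hqX : (q : ℝ) + X ≤ (P - g + L) * J := by exact_mod_cast hqb
  have hiN : ((w₀ + i * Δ : ℕ) : ℝ) ≤ (wr + L / 2) * J := by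
    have h2 : w₀ + i * Δ ≤ w₀ + N * Δ := by
      have := Nat.mul_le_mul_right Δ hi
      omega
    have h3 : ((w₀ + i * Δ : ℕ) : ℝ) ≤ ((w₀ + N * Δ : ℕ) : ℝ) := by exact_mod_cast h2
    exact h3.trans hV.zu
  have hrt := hV.rt i hi
  have hρ := hZ.ρ0
  have hρv := hZ.vρ
  have hgJ : q + (fv V₀ r i + H) + fw w₀ Δ i ≤ J := by
    have h2 : ρ * (((w₀ + i * Δ : ℕ) : ℝ) - wr * J) ≤ ρ * (L / 2 * J) := by
      refine mul_le_mul_of_nonneg_left ?_ hρ.le
      have : (wr + L / 2) * (J : ℝ) = wr * J + L / 2 * J := by ring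
      linarith only [hiN]
    have h3 : 0 ≤ e * (J : ℝ) := mul_nonneg hZ.e0.le hJ0.le
    have h4 : (P + G) * (J : ℝ) ≤ 1 * J := mul_le_mul_of_nonneg_right hZ.g7.le hJ0.le
    have h5 : ((10 + 4 * v) * L) * (J : ℝ) ≤ G * J := mul_le_mul_of_nonneg_right hZ.LG hJ0.le
    have h6 : ρ * (L / 2 * J) ≤ v * (L / 2 * J) :=
      mul_le_mul_of_nonneg_right hρv.le (by positivity)
    have h7 : 0 ≤ v * (L * J) := mul_nonneg (by linarith only [hρ, hρv]) (by positivity)
    have h8 : 0 ≤ L * (J : ℝ) := by positivity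
    have h9 : (q : ℝ) + ((V₀ + i * r + H : ℕ) : ℝ) + ((w₀ + i * Δ : ℕ) : ℝ) ≤ J := by
      nlinarith only [hqa, hqX, hiN, hrt, h2, h3, h4, h5, h6, h7]
    have h10 : q + (V₀ + i * r + H) + (w₀ + i * Δ) ≤ J := by exact_mod_cast h9
    exact h10
  have hXn : q + X ≤ J := by
    have h2 : (P - g + L) * (J : ℝ) ≤ 1 * J := by
      refine mul_le_mul_of_nonneg_right ?_ hJ0.le
      have g7 := hZ.g7
      have g9 := hZ.g9
      have g10 := hZ.g10
      have g11 := hZ.g11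
      have LG := hZ.LG
      have : 0 ≤ v * L := mul_nonneg (by linarith only [hρ, hρv]) hL0.le
      nlinarith only [hL0, g7, g9, g10, g11, LG, this]
    have h3 : (q : ℝ) + X ≤ J := by linarith only [hqX, h2]
    exact_mod_cast h3
  have k1 := act_pq hl hg hXn
  have k2 := hF.act hi hPu hPN hl hgJ X
  rw [hsg] at k2
  have k3 : CH (Pool.Agent.H49.Ent.cond F.p A True) (fun ω => F.D (q + X) ω i₀)
      (fun ω => (F.D q ω i₀, Fam.pt F ω)) =
      CH (Pool.Agent.H49.Ent.cond F.p A True) (fun ω => ⌊(2 : ℝ) ^ (q + X) * F.d ω i₀⌋)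
        (Pool.S6N.pq F i₀ q) := rfl
  rw [k3] at k1
  -- the slope
  have m1 := hZ.act ((q : ℚ) / J) (by
    push_cast
    have e1 : (q : ℝ) / J - (P - g) = (q - (P - g) * J) / J := by field_simp
    rw [e1, abs_div, abs_of_pos hJ0, div_le_iff₀ hJ0, abs_le]
    constructor <;> linarith)
  have m2 := hZ.act (((q + X : ℕ) : ℚ) / J) (by
    push_cast
    have e1 : ((q : ℝ) + X) / J - (P - g) = (q + X - (P - g) * J) / J := by field_simp
    rw [e1, abs_div, abs_of_pos hJ0, div_le_iff₀ hJ0, abs_le]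
    constructor <;> linarith)
  rw [abs_le] at m1 m2
  have e1 : ((((q + X : ℕ) : ℚ) / J : ℚ) : ℝ) - (((q : ℚ) / J : ℚ) : ℝ) = X / J := by
    push_cast
    ring
  have m3 : α * (X / J) - 2 * e ≤ act (((q + X : ℕ) : ℚ) / J) - act ((q : ℚ) / J) := by
    rw [← e1]
    linarith only [m1, m2, m1.2, m2.1]
  have hlJ : 0 < Real.log 2 * J := by positivity
  have m4 := mul_le_mul_of_nonneg_right m3 hlJ.le
  have e3 : (α * (X / J) - 2 * e) * (Real.log 2 * J) = (α * X - 2 * (e * J)) * Real.log 2 := by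
    field_simp
  rw [e3] at m4
  have e4 : (act (((q + X : ℕ) : ℚ) / J) - act ((q : ℚ) / J)) * (Real.log 2 * J) =
      (act (((q + X : ℕ) : ℚ) / J) - act ((q : ℚ) / J)) * Real.log 2 * J := by ring
  rw [e4] at m4
  have m5 : 8 * (e * J) ≤ α * X := by
    have h2 := mul_le_mul_of_nonneg_right hex hJ0.le
    have h3 := mul_le_mul_of_nonneg_left hxX hα.le
    linarith only [h2, h3]
  have m6 : α * x * Real.log 2 / 16 * J ≤ α * X * Real.log 2 / 16 := by
    have h3 := mul_le_mul_of_nonneg_left hxX (by positivity : 0 ≤ α * Real.log 2 / 16)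
    linarith only [h3]
  have m7 : (α * X - 2 * (e * J)) * Real.log 2 ≥ (α * X * (3 / 4)) * Real.log 2 := by
    refine mul_le_mul_of_nonneg_right ?_ hl2.le
    linarith only [m5]
  have m8 : 0 ≤ α * X * Real.log 2 := by positivity
  linarith only [hK, k1, k2, m4, m6, m7, m8]

end Pool.S6C
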