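import Pool.Agent.H64.KS6.WfeA
import Pool.Agent.H80.S6C.Cls

/-!
# The times on the events of a class
-/

set_option autoImplicit false

namespace Pool.S6C

open Finset Real
open Pool.Agent.H49.Ent Pool.Agent.H32.Dense Pool.STK Pool.KA Pool.KSAT Pool.K2S Pool.PB Pool.KS6

/-- Given the line, the time is uniform up to a small deficit, on the events of the class. -/
theorem tm_clp {S : PCl 3} {a R : ℝ}
    (hst : ∀ (τ : ℝ) (J : ℕ) (F : Fam 3 J) (A : F.Ω → Prop), S.St τ J F A → Fam.Stt F a R τ A)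
    {e : ℝ} (he : 0 < e) : Clp S (fun J F A => IsLaw (Pool.Agent.H49.Ent.cond F.p A True) ∧
      (J : ℝ) * Real.log 2 - e * J ≤
        CH (Pool.Agent.H49.Ent.cond F.p A True) F.T (fun ω => (F.l ω, F.Z ω))) := by
  refine Clp.of (τ := e / 6) (by positivity) 0 fun J _ F A hA => ?_
  obtain ⟨h1, h2, h3, h4⟩ := hst _ J F A hA
  have hA0 : 0 < Pe F.p A := lt_of_lt_of_le (Real.exp_pos _) h4
  have hl := Pool.K2S.isLaw_cond F.isLaw hA0
  refine ⟨hl, ?_⟩
  have h5 := Pool.S6K.Wfe.res_Tm (τ := e / 6) (c := e / 6) (by positivity) (by positivity) h1 h2.1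
    h3 h4 hl
  unfold Fam.Tm at h5
  have e1 : (5 * (e / 6) + e / 6) * (J : ℝ) = e * J := by ring
  rw [e1] at h5
  exact h5

end Pool.S6C
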