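import Pool.Agent.H88.S6F.FallA
import Pool.Agent.H88.S6F.Tm
import Pool.Agent.H33.S6.Zof
import Pool.Agent.H90.S6R.RowF
import Pool.Agent.H21.FALL.Thm

/-!
# Falling: the class half

`fall_of`: the statement `FALLStmt` of the falling case from its pieces.
-/

set_option autoImplicit false

namespace Pool.S6C

open Finset Real
open Pool.Agent.H49.Ent Pool.Agent.H32.Dense Pool.STK Pool.KA Pool.KSAT Pool.K2S Pool.PB Pool.KS6
  Pool.Sel51 Pool.FALL

/-- **(ACTF)** The velocities are active in the contexts of the falling case. -/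
def ActFStmt : Prop :=
  ∀ (S : PCl 3) (a R h₁ : ℝ) (i₀ : Fin 3) (c s₂ : ℝ) (r' : ℝ → ℝ) (D : Set ℝ) (σ : ℝ → Row),
    Cs S a R h₁ i₀ c s₂ r' D σ → ∀ (act : ℚ → ℝ) (v₁ t : ℚ) (e₁ P g wr v₀ v ρ a₀ α L e G : ℝ),
    ActN S i₀ act → (∀ q q' : ℚ, 0 ≤ q → q ≤ q' → q' ≤ 1 → act q ≤ act q') →
    Zof σ act v₁ t e₁ P g wr v₀ v ρ a₀ α L e G → ∀ (N : ℕ) (ul us : ℚ) (x : ℝ),
    0 < x → 8 * e ≤ α * x →
    Clp S (fun J F A => ∀ (w₀ Δ r V₀ H X Va Rt Pu PN : ℕ) (sg : Fin 3 → Fin 3)
      (a t : ℕ → F.Ω → ℝ) (s a' t' al nu kk bb : F.Ω → ℝ), sg 0 = i₀ →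
      FLv J N g wr v₀ v ρ L e ul us w₀ Δ r V₀ H X →
      FFr F A sg N w₀ Δ r V₀ H X Va Rt Pu PN a t s a' t' al nu kk bb → x * J ≤ X → ∀ i ≤ N,
      ∀ q : ℕ, (P - g - L) * J ≤ q → ((q + X : ℕ) : ℝ) ≤ (P - g + L) * J →
      q + fv V₀ r N ≤ Pu → q + (fv V₀ r N + H) ≤ PN →
      α / 2 * X * Real.log 2 ≤ CH (Pool.Agent.H49.Ent.cond F.p A True)
        (Uni.dg X (Pool.S6N.om F sg q (fv V₀ r i) H X (a i) s (t i) 0))
        (Pool.S6N.ctx F sg (fw w₀ Δ i) q (fv V₀ r i) H (a i) s (t i)))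

/-- **(FALL)** from its pieces. -/
theorem fall_of (hFF : FFrStmt) (hT : TurFStmt) (hW : WfeFStmt) (hAc : ActFStmt)
    (hLev : LevStmt) (hR : RowFStmt) : FALLStmt := by
  rintro S a₁ R₁ h₁ i₀ c s₂ r' D σ hC act K W v₁ t e₁ Q₀ P g v₀ v ρ a₀ α hL ⟨hvρ, hρ⟩
  have hc := hC.c0
  have hα := hL.α0
  have hv : 0 < v := hρ.trans hvρ
  have hl2 : 0 < Real.log 2 := Real.log_pos (by norm_num)
  obtain ⟨x₀, κ, ϖ, ι, ε, N, hx₀, hκ, hκ1, hϖ, hι, hε, hfall⟩ :=
    fall_one (c / 2) (α / 2) (by positivity) (by positivity)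
  obtain ⟨Dn, C₀, hDn, hC₀, hlev⟩ := hLev N ρ v hρ hvρ
  obtain ⟨β, hβ⟩ : ∃ β : ℝ, β = 2 * (2 * (v + ρ) * C₀ + 1) * Real.log 2 + 1 := ⟨_, rfl⟩
  obtain ⟨M, X₀, hfall⟩ := hfall β
  obtain ⟨δ, hδ⟩ : ∃ δ : ℝ, δ = c * κ * Real.log 2 / 16 := ⟨_, rfl⟩
  have hδ0 : 0 < δ := by rw [hδ]; positivity
  obtain ⟨C₁, hC₁, hrow⟩ := hR S a₁ R₁ h₁ i₀ c s₂ r' D σ hC act K W v₁ t e₁ Q₀ P g v₀ v ρ a₀ α hL
    hvρ hρ N C₀ κ ϖ δ hC₀ hκ hκ1 hϖ hδ0
  -- the number of places
  obtain ⟨n, hn⟩ := exists_nat_gt (((M + N : ℕ) : ℝ) * C₁ / δ)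
  have hn0 : 0 < n := by
    have h1 : (0 : ℝ) ≤ ((M + N : ℕ) : ℝ) * C₁ / δ := by positivity
    have h2 : (0 : ℝ) < n := h1.trans_lt hn
    exact_mod_cast h2
  rw [div_lt_iff₀ hδ0] at hn
  -- the zone
  obtain ⟨C, hCd⟩ : ∃ C : ℝ, C = 2 * (2 * (M + N + 1) * C₀ + n * C₁ + 2) + 8 * (2 + ι) + C₀ +
    x₀ := ⟨_, rfl⟩
  have hC0 : 0 < C := by rw [hCd]; positivity
  obtain ⟨ε₀, x₁, hε₀, hx₁, hrow⟩ := hrow C hC0
  obtain ⟨εz, hεz, hall⟩ := exists_room [ε₀, 1 / (1000 * (1 + ρ)), C / 100,
    min 1 x₀ / (400 * (1 + ρ)), α * ι / 32, α / 16] (by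
    intro y hy
    simp only [List.mem_cons, List.not_mem_nil, or_false] at hy
    rcases hy with h | h | h | h | h | h <;> · rw [h]; positivity)
  exact by
   simp only [List.mem_cons, List.not_mem_nil, or_false, forall_eq_or_imp, forall_eq] at hall
   obtain ⟨b1, b2, b3, b4, b5, b6⟩ := hall
   rw [lt_div_iff₀ (by positivity)] at b2 b3 b4 b5 b6
   obtain ⟨x₂, hx₂, hzof⟩ := zof_of_loc hC hL hvρ hρ hC0 hεz (by linarith only [b3])
   obtain ⟨x, hx⟩ : ∃ x : ℝ, x = min x₁ x₂ := ⟨_, rfl⟩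
   have hx0 : 0 < x := by rw [hx]; exact lt_min hx₁ hx₂
   have hxx₁ : x ≤ x₁ := by rw [hx]; exact min_le_left _ _
   have hZ := hzof x hx0 (by rw [hx]; exact min_le_right _ _)
   obtain ⟨L, hLd⟩ : ∃ L : ℝ, L = C * x := ⟨_, rfl⟩
   obtain ⟨e, he⟩ : ∃ e : ℝ, e = εz * x := ⟨_, rfl⟩
   obtain ⟨G, hG⟩ : ∃ G : ℝ, G = (10 + 4 * v) * C * x := ⟨_, rfl⟩
   rw [← hLd, ← he, ← hG] at hZ
   have hL0 := hZ.L0
   have hG0 := hZ.G0
   have he0 := hZ.e0
   have hLG : L ≤ G := by
     have h1 := hZ.LG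
     have h2 : 0 ≤ v * L := by positivity
     linarith only [hL0, h1, h2]
   have hC₀L : C₀ * x ≤ L := by
     rw [hLd]
     refine mul_le_mul_of_nonneg_right ?_ hx0.le
     rw [hCd]
     have : 0 ≤ 2 * (2 * ((M : ℝ) + N + 1) * C₀ + n * C₁ + 2) + 8 * (2 + ι) + x₀ := by positivity
     linarith only [this]
   obtain ⟨ul, us, J₁, hul, hus, hlev⟩ := hlev x e L g (W g) v₀ hx0 he0 (by
       rw [he]
       have := mul_le_mul_of_nonneg_right b2.le hx0.le
       linarith only [this]) hC₀L (hLG.trans_lt hZ.g9) (hLG.trans_lt hZ.g10) (hLG.trans_lt hZ.g11)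
   obtain ⟨η, hη, hrow⟩ := hrow x L e G hx0 hxx₁ hLd.le he0 (by
       rw [he]; exact mul_le_mul_of_nonneg_right b1.le hx0.le) hZ ul us hul hus
   -- the classes
   exact by
    have c1 := tm_clp hC.st (e := ι * x / 2) (by positivity)
    have c2 := hFF S a₁ R₁ h₁ i₀ c s₂ r' D σ hC act K W v₁ t e₁ Q₀ P g v₀ v ρ a₀ α hL L e G hZ N
      ul us η hη
    have hm0 : 0 < min 1 x₀ := lt_min one_pos hx₀
    have c3 := hT S a₁ R₁ h₁ i₀ c s₂ r' D σ hC act v₁ t e₁ P g (W g) v₀ v ρ a₀ α L e G hZ N ul us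
      (min 1 x₀ * x / 2) ε (by
        rw [he]
        have := mul_le_mul_of_nonneg_right b4.le hx0.le
        linarith only [this]) (by
        have h1 : min 1 x₀ * x ≤ 1 * x := mul_le_mul_of_nonneg_right (min_le_left _ _) hx0.le
        have h2 : 1 * x ≤ C₀ * x := mul_le_mul_of_nonneg_right hC₀ hx0.le
        linarith only [hL0, hC₀L, h1, h2]) hε
    have hCC : 8 * (2 + ι) * x ≤ L := by
      rw [hLd]
      refine mul_le_mul_of_nonneg_right ?_ hx0.le
      rw [hCd]
      have : 0 ≤ 2 * (2 * ((M : ℝ) + N + 1) * C₀ + n * C₁ + 2) + C₀ + x₀ := by positivity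
      linarith only [this]
    have c4 := hW S a₁ R₁ h₁ i₀ c s₂ r' D σ hC act v₁ t e₁ P g (W g) v₀ v ρ a₀ α L e G hL.actN
      hL.amono hZ N ul us (ι / 2) x (by positivity) hx0 (by nlinarith only [hx0, hCC, hι]) (by
        rw [he]
        have := mul_le_mul_of_nonneg_right b5.le hx0.le
        nlinarith only [this])
    have c5 := hAc S a₁ R₁ h₁ i₀ c s₂ r' D σ hC act v₁ t e₁ P g (W g) v₀ v ρ a₀ α L e G hL.actN
      hL.amono hZ N ul us (x / 2) (by positivity) (by
        rw [he]
        have := mul_le_mul_of_nonneg_right b6.le hx0.le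
        nlinarith only [this])
    -- large `X`
    obtain ⟨K₁, hK₁⟩ : ∃ K₁ : ℕ, X₀ ≤ K₁ ∧ 2 / κ ≤ K₁ ∧ 2 * Real.log 9 ≤ K₁ ∧
        cRow 4 0 0 ≤ c / 4 * (κ * K₁ / 2) * Real.log 2 ∧ 2 ≤ K₁ := by
      obtain ⟨k1, hk1⟩ := exists_nat_gt (2 / κ)
      obtain ⟨k2, hk2⟩ := exists_nat_gt (2 * Real.log 9)
      obtain ⟨k3, hk3⟩ := exists_nat_gt (cRow 4 0 0 / (c / 4 * (κ / 2) * Real.log 2))
      rw [div_lt_iff₀ (by positivity)] at hk3
      refine ⟨X₀ + k1 + k2 + k3 + 2, by omega, ?_, ?_, ?_, by omega⟩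
      · push_cast
        have : (0 : ℝ) ≤ X₀ := Nat.cast_nonneg _
        have : (0 : ℝ) ≤ k2 := Nat.cast_nonneg _
        have : (0 : ℝ) ≤ k3 := Nat.cast_nonneg _
        linarith only [hk1]
      · push_cast
        have : (0 : ℝ) ≤ X₀ := Nat.cast_nonneg _
        have : (0 : ℝ) ≤ k1 := Nat.cast_nonneg _
        have : (0 : ℝ) ≤ k3 := Nat.cast_nonneg _
        linarith only [hk2]
      · push_cast
        have h1 : (k3 : ℝ) ≤ X₀ + k1 + k2 + k3 + 2 := by
          have : (0 : ℝ) ≤ X₀ := Nat.cast_nonneg _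
          have : (0 : ℝ) ≤ k1 := Nat.cast_nonneg _
          have : (0 : ℝ) ≤ k2 := Nat.cast_nonneg _
          linarith only
        have h2 := mul_le_mul_of_nonneg_right h1
          (by positivity : 0 ≤ c / 4 * (κ / 2) * Real.log 2)
        linarith only [hk3, h2]
    exact by
     obtain ⟨J₂, hJ₂⟩ := exists_nat_gt (((K₁ : ℝ) + 2) * 2 / x)
     rw [div_lt_iff₀ hx0] at hJ₂
     refine Clp.not_false hC.ne (Clp.mono (J₂ := max J₁ J₂)
       (c1.and (c2.and (c3.and (c4.and (c5.and hrow))))) ?_)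
     rintro J hJ F A ⟨⟨hl, ht⟩, h2, h3, h4, h5, h6⟩
     have hJ1 : J₁ ≤ J := (le_max_left _ _).trans hJ
     have hJ2 : J₂ ≤ J := (le_max_right _ _).trans hJ
     have hJ2r : (J₂ : ℝ) ≤ J := by exact_mod_cast hJ2
     have hJ0 : (0 : ℝ) ≤ J := Nat.cast_nonneg _
     have hxJ : ((K₁ : ℝ) + 2) * 2 ≤ x * J := by
       have := mul_le_mul_of_nonneg_right hJ2r hx0.le
       linarith only [hJ₂, this]
     obtain ⟨X, hX⟩ : ∃ X : ℕ, X = ⌊x * J⌋₊ := ⟨_, rfl⟩
     obtain ⟨w₀, r, V₀, H, hDC, hr, hF⟩ := hlev J hJ1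
     rw [← hX] at hr hF
     have hK0 : (0 : ℝ) ≤ K₁ := Nat.cast_nonneg _
     have hX1 : (X : ℝ) ≤ x * J := by
       rw [hX]
       exact Nat.floor_le (by positivity)
     have hX2 : x * J < X + 1 := by
       rw [hX]
       exact Nat.lt_floor_add_one _
     have hXh : x * J / 2 ≤ X := by linarith only [hxJ, hX2]
     have hXK : (K₁ : ℝ) ≤ X := by linarith only [hxJ, hX2]
     have hXKn : K₁ ≤ X := by exact_mod_cast hXK
     have hX0 : (0 : ℝ) < X := by linarith only [hxJ, hX2]
     obtain ⟨hKX, hKκ, hKl, hKr, hK2⟩ := hK₁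
     obtain ⟨Va, Rt, sg, a, tt, s, a', t', al, nu, kk, bb, zl, zs, hsg, hFr, hNr⟩ :=
       h2 w₀ (Dn * X) r V₀ H X (fPu P g v₀ G J) (fPN P (W g) G J) hF
         (by
           unfold fPu
           refine Nat.floor_le (mul_nonneg ?_ hJ0)
           have := hZ.g8
           have := hZ.g10
           linarith)
         (by
           unfold fPN
           refine Nat.floor_le (mul_nonneg ?_ hJ0)
           have := hZ.g8
           have := hZ.g10
           have := hZ.g11
           linarith)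
     exact by
      have hΔr : ((Dn * X : ℕ) : ℝ) ≤ C₀ * X := by
        push_cast
        exact mul_le_mul_of_nonneg_right hDC hX0.le
      obtain ⟨X', loss, hX'0, hX'1, hloss, hsum, hbox⟩ := h6 w₀ (Dn * X) r V₀ H X Va Rt sg a tt s a' t'
        al nu kk bb zl zs hsg hF hX hΔr hr hFr hNr
      -- the good place
      obtain ⟨qb, hqb⟩ : ∃ qb : ℕ, qb = ⌊(P - g) * J⌋₊ := ⟨_, rfl⟩
      have hPg : 0 < P - g := hG0.trans hZ.g8
      have hqb1 : (qb : ℝ) ≤ (P - g) * J := by
        rw [hqb]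
        exact Nat.floor_le (by positivity)
      have hqb2 : (P - g) * J < qb + 1 := by
        rw [hqb]
        exact Nat.lt_floor_add_one _
      have hLx : x ≤ L := by nlinarith only [hL0, hCC, hι, hx0]
      have hLJ : (2 : ℝ) ≤ L / 2 * J := by
        have h1 : 8 * (2 + ι) * x * J ≤ L * J := mul_le_mul_of_nonneg_right hCC hJ0
        have h2 : 0 ≤ ι * (x * J) := by positivity
        linarith only [hxJ, h1, h2]
      have hrange : ∀ h m : ℕ, h ≤ M + N → m ≤ n →
          |((qb + h * (Dn * X + r) + m * X' : ℕ) : ℝ) - (P - g) * J| ≤ L / 2 * J := by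
        intro h m hh hm
        have h1 : (h : ℝ) ≤ M + N := by exact_mod_cast hh
        have h2 : (m : ℝ) ≤ n := by exact_mod_cast hm
        have h3 : ((Dn * X : ℕ) : ℝ) + r ≤ 2 * C₀ * X := by linarith only [hr, hΔr]
        have h30 : (0 : ℝ) ≤ ((Dn * X : ℕ) : ℝ) + r := by positivity
        have h4 : (h : ℝ) * (((Dn * X : ℕ) : ℝ) + r) ≤ (M + N) * (2 * C₀ * X) :=
          mul_le_mul h1 h3 h30 (by positivity)
        have h5 : (m : ℝ) * X' ≤ n * (C₁ * X) := mul_le_mul h2 hX'1 (by positivity) (by positivity)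
        have h6 : (M + N) * (2 * C₀ * X) + n * (C₁ * X) ≤ (2 * (M + N) * C₀ + n * C₁) * (x * J) := by
          have : 0 ≤ 2 * ((M : ℝ) + N) * C₀ + n * C₁ := by positivity
          have := mul_le_mul_of_nonneg_left hX1 this
          linarith only [this]
        have h7 : (2 * ((M : ℝ) + N) * C₀ + n * C₁) * (x * J) ≤ L / 2 * J := by
          have e1 : L / 2 * J = C / 2 * (x * J) := by rw [hLd]; ring
          rw [e1]
          refine mul_le_mul_of_nonneg_right ?_ (by positivity)
          rw [hCd]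
          have : 0 ≤ 2 * C₀ + 2 + 4 * (2 + ι) + C₀ / 2 + x₀ / 2 := by positivity
          linarith only [hx₀, hι, hC₀]
        have h8 : (0 : ℝ) ≤ (h : ℝ) * (((Dn * X : ℕ) : ℝ) + r) := by positivity
        have h9 : (0 : ℝ) ≤ (m : ℝ) * X' := by positivity
        have e2 : ((qb + h * (Dn * X + r) + m * X' : ℕ) : ℝ) =
            qb + h * (((Dn * X : ℕ) : ℝ) + r) + m * X' := by push_cast; ring
        rw [e2, abs_le]
        constructor <;> linarith
      exact by
       obtain ⟨m, hm, hgood⟩ := exists_good (f := fun h m => loss (qb + h * (Dn * X + r) + m * X'))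
         (m := M + N) (n := n) (C := C₁ * X) (δ := δ * X) (fun h k => hloss _)
         (fun h hh => by
           refine hsum (qb + h * (Dn * X + r)) n ?_ ?_
           · have := hrange h 0 hh.le (Nat.zero_le _)
             rwa [zero_mul, add_zero] at this
           · exact hrange h n hh.le le_rfl)
         hn0 (by
           have := mul_le_mul_of_nonneg_right hn.le hX0.le
           linarith only [this])
       -- the places
       have hfq : ∀ i k : ℕ, fq (qb + m * X') (Dn * X) r N i k =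
           qb + (k + (N - i)) * (Dn * X + r) + m * X' := by
         intro i k
         unfold fq
         ring
       have hXL : (X : ℝ) ≤ L * J := hX1.trans (mul_le_mul_of_nonneg_right hLx hJ0)
       have hq0 := hrange 0 0 (Nat.zero_le _) (Nat.zero_le _)
       have hroom0 := lev_room hZ hF hXL hq0
       have hplace : ∀ i ≤ N, ∀ k < M,
           |((fq (qb + m * X') (Dn * X) r N i k : ℕ) : ℝ) - (P - g) * J| ≤ L / 2 * J := by
         intro i hi k hk
         rw [hfq]
         exact hrange _ m (by omega) hm.le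
       have hVV : V₀ ≤ Va := by
         have h1 := hFr.va'
         unfold fv at h1
         omega
       have hRR : V₀ + H ≤ Rt := by
         have h1 := hFr.rt'
         unfold fv at h1
         omega
       exact by
        have hdg := lev_dig hρ hvρ he0 hF hul hus hNr.vb hNr.rb hVV hRR
        have hκX : κ * X / 2 ≤ ⌊κ * X⌋₊ := by
          have h1 : κ * X < ⌊κ * X⌋₊ + 1 := Nat.lt_floor_add_one _
          have h2 : 2 ≤ κ * X := by
            have := mul_le_mul_of_nonneg_left (hKκ.trans hXK) hκ.le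
            rw [mul_div_cancel₀ _ hκ.ne'] at this
            exact this
          linarith only [h1, h2]
        refine hfall J F A sg X (Dn * X) r w₀ V₀ H (qb + m * X') 4 (ι * X) (β * X) a tt s a' t'
          (hKX.trans hXKn) le_rfl le_rfl ?_
        refine ⟨hFr.bij.1, hl, hF.XΔ, hF.Xr, hroom0.2.2.1, by norm_num, le_rfl,
          fun i hi => hFr.frg hi, ?_, ?_, ?_, ?_, ?_, ?_⟩
        · -- time
          have h7 : ι * x / 2 * J ≤ ι * X := by
            have := mul_le_mul_of_nonneg_left hXh hι.le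
            linarith only [this]
          linarith only [ht, h7]
        · -- dig
          intro i hi
          refine (hFr.dig hi hl).trans ?_
          have h7 : (2 * (v + ρ) * (C₀ * x) + 34 * e) * J ≤ (2 * (v + ρ) * C₀ + 1) * (x * J) := by
            have h8 : 34 * e ≤ 1 * x := by
              rw [he]
              have h9 := mul_le_mul_of_nonneg_right b2.le hx0.le
              have h10 : 0 ≤ ρ * (εz * x) := by positivity
              have h11 : 0 ≤ εz * x := by positivity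
              linarith only [he, he0, h9, h10]
            have h9 := mul_le_mul_of_nonneg_right h8 hJ0
            linarith only [h9]
          have h8 : (2 * (v + ρ) * C₀ + 1) * (x * J) ≤ (2 * (v + ρ) * C₀ + 1) * (2 * X) :=
            mul_le_mul_of_nonneg_left (by linarith only [hxJ, hX2]) (by positivity)
          have h9 := mul_le_mul_of_nonneg_right (hdg.trans (h7.trans h8)) hl2.le
          have h10 : 2 * Real.log 9 ≤ X := hKl.trans hXK
          rw [hβ]
          linarith only [hxJ, hX2, hKl, h9]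
        · -- wfe
          intro i hi k hk
          have h7 := h4 w₀ (Dn * X) r V₀ H X Va Rt sg a tt s a' t' al nu kk bb hsg hF hX1 hFr i hi _
            (hplace i hi k hk)
          have h8 : ι / 2 * x * J ≤ ι * X := by
            have := mul_le_mul_of_nonneg_left hXh hι.le
            linarith only [this]
          exact (by linarith only [h8] : (X : ℝ) * Real.log 2 - ι * X ≤ X * Real.log 2 - ι / 2 * x * J).trans h7
        · -- act
          intro i hi k hk
          have hp := hplace i hi k hk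
          have hro := lev_room hZ hF hXL hp
          have hLJ0 : 0 ≤ L * J := by positivity
          rw [abs_le] at hp
          refine h5 w₀ (Dn * X) r V₀ H X Va Rt (fPu P g v₀ G J) (fPN P (W g) G J) sg a tt s a' t' al nu
            kk bb hsg hF hFr (by linarith only [hxJ, hX2]) i hi _ (by linarith only [hLJ, hp]) ?_ hro.1 hro.2.1
          have h7 : (X : ℝ) ≤ L / 2 * J := by
            have h8 : 8 * (2 + ι) * x * J ≤ L * J := mul_le_mul_of_nonneg_right hCC hJ0
            have h9 : 0 ≤ ι * (x * J) := by positivity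
            linarith only [hxJ, hX1, h8, h9]
          rw [Nat.cast_add]
          linarith only [hp, h7]
        · -- row
          refine row_of_box (D := 4) (D' := 0) (c₁ := 3 * c / 4) (Cf := 0) (af := a') (tf := t')
            hFr.bij.1 hl (by norm_num) le_rfl hroom0.2.2.1 (fun i hi => hFr.frg hi)
            (fun i hi ω hω => ⟨hFr.ca i hi ω hω, hFr.ct i hi ω hω⟩)
            (fun ω _ => by rw [sub_self, abs_zero, zero_div]) hϖ ?_ ?_ ?_
          · intro E hE
            have hlE := isLaw_event hl hϖ hE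
            refine (CH_eq_zero hlE.nonneg ?_).le
            intro ω ω' _ _ h
            have h1 := Pool.S6N.gt_ext h
            exact Prod.ext h1.2.1 h1.2.2.2
          · have h7 : κ * K₁ / 2 ≤ (⌊κ * X⌋₊ : ℝ) := by
              have := mul_le_mul_of_nonneg_left hXK hκ.le
              linarith only [hκX, this]
            have h8 : c / 4 * (κ * K₁ / 2) * Real.log 2 ≤ c / 4 * (⌊κ * X⌋₊ : ℝ) * Real.log 2 := by
              refine mul_le_mul_of_nonneg_right ?_ hl2.le
              exact mul_le_mul_of_nonneg_left h7 (by positivity)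
            have e1 : (3 * c / 4 - c / 2) * (⌊κ * X⌋₊ : ℝ) * Real.log 2 =
                c / 4 * (⌊κ * X⌋₊ : ℝ) * Real.log 2 := by ring
            rw [e1]
            linarith only [hKr, h8]
          · intro i hi k hk j hj E hE
            have h7 := hbox i hi _ (hplace i hi k hk) j hj E hE
            refine h7.trans ?_
            have h8 : loss (qb + (k + (N - i)) * (Dn * X + r) + m * X') ≤ δ * X :=
              hgood (k + (N - i)) (by omega)
            rw [← hfq i k] at h8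
            have h9 : 2 * (δ * X) ≤ c / 4 * (⌊κ * X⌋₊ : ℝ) * Real.log 2 := by
              have h10 := mul_le_mul_of_nonneg_left hκX (by positivity : 0 ≤ c / 4 * Real.log 2)
              rw [hδ]
              linarith only [h10]
            linarith only [h8, h9]
        · -- tur
          intro i hi k hk
          have hp := hplace i hi k hk
          have hro := lev_room hZ hF hXL hp
          have hX' : min 1 x₀ * x / 2 * J ≤ X := by
            have h1 : min 1 x₀ * (x * J / 2) ≤ 1 * (x * J / 2) :=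
              mul_le_mul_of_nonneg_right (min_le_left _ _) (by positivity)
            linarith only [hxJ, hX2, h1]
          have hXy : min 1 x₀ * x / 2 * J ≤ x₀ * X := by
            have h1 : min 1 x₀ * (x * J / 2) ≤ x₀ * (x * J / 2) :=
              mul_le_mul_of_nonneg_right (min_le_right _ _) (by positivity)
            have h2 := mul_le_mul_of_nonneg_left hXh hx₀.le
            linarith only [h1, h2]
          refine h3 w₀ (Dn * X) r V₀ H X Va Rt (fPu P g v₀ G J) (fPN P (W g) G J) sg a tt s a' t' al nu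
            kk bb hsg hF hFr (by omega) ?_ hX' i hi _ (x₀ * X) hXy
          exact lev_rs hZ hF

end Pool.S6C
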