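import Pool.Agent.H88.S6F.Vs
import Pool.Agent.H88.S6F.Pro

/-!
# Falling: numerical lemmas for the assembly
-/

set_option autoImplicit false

namespace Pool.S6C

open Finset Real
open Pool.Agent.H49.Ent Pool.Agent.H32.Dense Pool.STK Pool.KA Pool.KSAT Pool.K2S Pool.PB Pool.KS6
  Pool.Sel51 Pool.FALL

/-- A good place of a progression: the sum of `m` losses is small. -/
theorem exists_good {f : ℕ → ℕ → ℝ} {m n : ℕ} {C δ : ℝ} (hf : ∀ h k, 0 ≤ f h k)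
    (hs : ∀ h < m, ∑ k ∈ range n, f h k ≤ C) (hn : 0 < n) (hB : (m : ℝ) * C ≤ n * δ) :
    ∃ k < n, ∀ h < m, f h k ≤ δ := by
  by_contra hcon
  push Not at hcon
  have h1 : ∀ k ∈ range n, δ < ∑ h ∈ range m, f h k := by
    intro k hk
    obtain ⟨h, hh, hlt⟩ := hcon k (mem_range.mp hk)
    exact hlt.trans_le (single_le_sum (f := fun h => f h k) (fun i _ => hf i k) (mem_range.mpr hh))
  have h2 : ∑ k ∈ range n, δ < ∑ k ∈ range n, ∑ h ∈ range m, f h k :=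
    sum_lt_sum_of_nonempty (nonempty_range_iff.mpr hn.ne') h1
  rw [sum_const, card_range, nsmul_eq_mul, sum_comm] at h2
  have h3 : ∑ h ∈ range m, ∑ k ∈ range n, f h k ≤ ∑ h ∈ range m, C :=
    sum_le_sum fun h hh => hs h (mem_range.mp hh)
  rw [sum_const, card_range, nsmul_eq_mul] at h3
  linarith only [hB, h2, h3]

section

variable {σ : ℝ → Row} {act : ℚ → ℝ} {v₁ t : ℚ} {e₁ P g wr v₀ v ρ a₀ α L e G : ℝ}
  {J N : ℕ} {ul us : ℚ} {w₀ Δ r V₀ H X : ℕ}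

theorem Zof.L0 (hZ : Zof σ act v₁ t e₁ P g wr v₀ v ρ a₀ α L e G) : 0 < L := by
  have := hZ.eL
  have := hZ.e0
  linarith

theorem Zof.G0 (hZ : Zof σ act v₁ t e₁ P g wr v₀ v ρ a₀ α L e G) : 0 < G := by
  have h1 := hZ.LG
  have h2 := hZ.L0
  have h3 : 0 < v := hZ.ρ0.trans hZ.vρ
  have h4 : 0 < (10 + 4 * v) * L := by positivity
  linarith

/-- **Room.** -/
theorem lev_room (hZ : Zof σ act v₁ t e₁ P g wr v₀ v ρ a₀ α L e G)
    (hF : FLv J N g wr v₀ v ρ L e ul us w₀ Δ r V₀ H X) (hX : (X : ℝ) ≤ L * J) {q : ℕ}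
    (hq : |(q : ℝ) - (P - g) * J| ≤ L / 2 * J) :
    q + fv V₀ r N ≤ fPu P g v₀ G J ∧ q + (fv V₀ r N + H) ≤ fPN P wr G J ∧
      w₀ + N * Δ + X ≤ J ∧ q + (fv V₀ r N + H) + fw w₀ Δ N ≤ J := by
  have hL := hZ.L0
  have hG := hZ.G0
  have he := hZ.e0
  have hρ := hZ.ρ0
  have hvρ := hZ.vρ
  have hLG := hZ.LG
  have hJ : (0 : ℝ) ≤ J := Nat.cast_nonneg _
  have hLJ : 0 ≤ L * J := by positivity
  have heJ : 0 ≤ e * J := by positivity
  have hvL : 0 ≤ v * (L * J) := mul_nonneg (by linarith only [hρ, hvρ]) hLJ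
  have hGJ : (10 + 4 * v) * L * J ≤ G * J := mul_le_mul_of_nonneg_right hLG hJ
  rw [abs_le] at hq
  have hNr : (w₀ : ℝ) ≤ ((w₀ + N * Δ : ℕ) : ℝ) := by exact_mod_cast Nat.le_add_right _ _
  have hw := hF.zu
  have e1 : (wr + L / 2) * (J : ℝ) = wr * J + L / 2 * J := by ring
  rw [e1] at hw
  have hva := hF.va
  have hrt := hF.rt N le_rfl
  have h1 : v * ((w₀ : ℝ) - wr * J) ≤ v * (L / 2 * J) :=
    mul_le_mul_of_nonneg_left (by linarith only [hNr, hw]) (by linarith only [hρ, hvρ])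
  have h2 : ρ * (((w₀ + N * Δ : ℕ) : ℝ) - wr * J) ≤ ρ * (L / 2 * J) :=
    mul_le_mul_of_nonneg_left (by linarith only [hw]) hρ.le
  have h3 : ρ * (L / 2 * J) ≤ v * (L / 2 * J) :=
    mul_le_mul_of_nonneg_right hvρ.le (by positivity)
  have e2 : ((V₀ + N * r : ℕ) : ℝ) = (fv V₀ r N : ℝ) := rfl
  have e3 : ((V₀ + N * r + H : ℕ) : ℝ) = (fv V₀ r N : ℝ) + H := by
    unfold fv
    push_cast
    ring
  rw [e2] at hva
  rw [e3] at hrt
  refine ⟨?_, ?_, ?_, ?_⟩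
  · unfold fPu
    refine Nat.le_floor ?_
    push_cast
    nlinarith only [hX, hq, heJ, hvL, hGJ, hva, h1]
  · unfold fPN
    refine Nat.le_floor ?_
    push_cast
    nlinarith only [hX, hq, heJ, hvL, hGJ, hrt, h2, h3]
  · have h4 : wr + 2 * L ≤ 1 := by
      have g7 := hZ.g7
      have g8 := hZ.g8
      have g10 := hZ.g10
      have g11 := hZ.g11
      have : 0 ≤ v * L := mul_nonneg (by linarith only [hρ, hvρ]) hL.le
      nlinarith only [hL, hLG, g7, g8, g10, g11, this]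
    have h5 := mul_le_mul_of_nonneg_right h4 hJ
    have h6 : ((w₀ + N * Δ + X : ℕ) : ℝ) ≤ J := by
      rw [Nat.cast_add]
      linarith only [hX, hw, h5]
    exact_mod_cast h6
  · have h5 := mul_le_mul_of_nonneg_right hZ.g7.le hJ
    have h6 : ((q + (fv V₀ r N + H) + fw w₀ Δ N : ℕ) : ℝ) ≤ J := by
      have e4 : ((fw w₀ Δ N : ℕ) : ℝ) = ((w₀ + N * Δ : ℕ) : ℝ) := rfl
      rw [Nat.cast_add, Nat.cast_add, Nat.cast_add, e4]
      nlinarith only [hX, hq, heJ, hvL, hGJ, hw, hrt, h2, h3, h5]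
    exact_mod_cast h6

/-- Room for the normal form to `X` more digits. -/
theorem lev_rs (hZ : Zof σ act v₁ t e₁ P g wr v₀ v ρ a₀ α L e G)
    (hF : FLv J N g wr v₀ v ρ L e ul us w₀ Δ r V₀ H X) :
    fv V₀ r N + H + X ≤ fPN P wr G J := by
  have hL := hZ.L0
  have hG := hZ.G0
  have he := hZ.e0
  have hρ := hZ.ρ0
  have hvρ := hZ.vρ
  have hLG := hZ.LG
  have hJ : (0 : ℝ) ≤ J := Nat.cast_nonneg _
  have hLJ : 0 ≤ L * J := by positivity
  have heJ : 0 ≤ e * J := by positivity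
  have hrs := hF.rs
  have hus := mul_le_mul_of_nonneg_right hF.us1 hJ
  have h2 : ρ * (((us : ℝ) - wr) * J) ≤ v * (L / 2 * J) := by
    have h3 : ((us : ℝ) - wr) * J ≤ L / 2 * J := by linarith only [hus]
    exact (mul_le_mul_of_nonneg_left h3 hρ.le).trans
      (mul_le_mul_of_nonneg_right hvρ.le (by positivity))
  have h4 : (10 + 4 * v) * L * J ≤ G * J := mul_le_mul_of_nonneg_right hLG hJ
  have h5 : 0 ≤ (P - g) * J := mul_nonneg (by linarith only [hG, hZ, hZ.g8]) hJ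
  have h6 : 0 ≤ v * (L * J) := mul_nonneg (by linarith only [hρ, hvρ]) hLJ
  unfold fPN
  refine Nat.le_floor ?_
  have e1 : ((fv V₀ r N + H + X : ℕ) : ℝ) = ((V₀ + N * r + H + X : ℕ) : ℝ) := rfl
  rw [e1]
  nlinarith only [hLJ, heJ, hrs, h2, h4, h5, h6]

/-- The levels of the exact frame are not far from the levels of the windows. -/
theorem lev_dig {Va Rt : ℕ} {C₀ x : ℝ} (hρ : 0 < ρ) (hvρ : ρ < v) (he : 0 < e)
    (hF : FLv J N g wr v₀ v ρ L e ul us w₀ Δ r V₀ H X)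
    (hul : |(ul : ℝ) - wr| ≤ C₀ * x) (hus : |(us : ℝ) - wr| ≤ C₀ * x)
    (vb : (Va : ℝ) ≤ (v₀ + v * (us - wr) + 2 * e) * J)
    (rb : (Rt : ℝ) ≤ (g - wr + ρ * (us - wr) + 2 * e) * J) (h1 : V₀ ≤ Va) (h2 : V₀ + H ≤ Rt) :
    ((Va - V₀ : ℕ) : ℝ) + ((Rt - (V₀ + H) : ℕ) : ℝ) ≤
      (2 * (v + ρ) * (C₀ * x) + 34 * e) * J := by
  have hJ : (0 : ℝ) ≤ J := Nat.cast_nonneg _
  have heJ : 0 ≤ e * J := by positivity
  rw [abs_le] at hul hus
  have hv : 0 < v := hρ.trans hvρ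
  have hNr : (w₀ : ℝ) ≤ ((w₀ + N * Δ : ℕ) : ℝ) := by exact_mod_cast Nat.le_add_right _ _
  have hrt := hF.rt' 0 (Nat.zero_le _)
  rw [zero_mul, add_zero, zero_mul, add_zero, Nat.cast_add] at hrt
  have hhs := hF.hs
  rw [Nat.cast_add] at hhs
  have hul1 := hF.ul1
  have hus0 := hF.us0
  rw [Nat.cast_sub h1, Nat.cast_sub h2, Nat.cast_add]
  have hX : (0 : ℝ) ≤ X := Nat.cast_nonneg _
  obtain ⟨y, hy⟩ : ∃ y, y = C₀ * x := ⟨_, rfl⟩
  rw [← hy] at hul hus ⊢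
  -- the window
  have k1 : -(y * J) ≤ (w₀ : ℝ) - wr * J := by
    have := mul_le_mul_of_nonneg_right hul.1 hJ
    nlinarith only [heJ, hul1, this]
  have k2 : (us : ℝ) * J - wr * J ≤ y * J := by
    have := mul_le_mul_of_nonneg_right hus.2 hJ
    nlinarith only [this]
  have k3 : -(y * J) ≤ ((ul : ℝ) - wr) * J := by
    have := mul_le_mul_of_nonneg_right hul.1 hJ
    linarith only [this]
  have m1 : ρ * (-(y * J)) ≤ ρ * ((w₀ : ℝ) - wr * J) := mul_le_mul_of_nonneg_left k1 hρ.le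
  have m2 : v * ((us : ℝ) * J - wr * J) ≤ v * (y * J) := mul_le_mul_of_nonneg_left k2 hv.le
  have m3 : ρ * ((us : ℝ) * J - wr * J) ≤ ρ * (y * J) := mul_le_mul_of_nonneg_left k2 hρ.le
  have m4 : (v - ρ) * (-(y * J)) ≤ (v - ρ) * (((ul : ℝ) - wr) * J) :=
    mul_le_mul_of_nonneg_left k3 (by linarith only [hvρ])
  have e1 : (ρ - v) * ((ul : ℝ) - wr) * J = -((v - ρ) * (((ul : ℝ) - wr) * J)) := by ring
  rw [e1] at hhs
  have e2 : (v₀ + v * ((us : ℝ) - wr) + 2 * e) * J =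
      v₀ * J + v * ((us : ℝ) * J - wr * J) + 2 * (e * J) := by ring
  have e3 : (g - wr + ρ * ((us : ℝ) - wr) + 2 * e) * J =
      (g - wr) * J + ρ * ((us : ℝ) * J - wr * J) + 2 * (e * J) := by ring
  rw [e2] at vb
  rw [e3] at rb
  have e4 : (2 * (v + ρ) * y + 34 * e) * (J : ℝ) =
      2 * (v * (y * J)) + 2 * (ρ * (y * J)) + 34 * (e * J) := by ring
  rw [e4]
  have e5 : (g - wr - v₀) * (J : ℝ) = (g - wr) * J - v₀ * J := by ring
  rw [e5] at hhs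
  have e6 : 50 * e * (J : ℝ) = 50 * (e * J) := by ring
  have e7 : 30 * e * (J : ℝ) = 30 * (e * J) := by ring
  rw [e6] at hhs
  rw [e7] at hrt
  linarith only [vb, rb, heJ, hrt, hhs, m1, m2, m3, m4]

end

end Pool.S6C
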