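import Pool.Agent.H88.S6F.ActF
import Pool.Agent.H21.FALL.Wfe
import Pool.Agent.H36.S6.RowF
import Pool.Agent.H23.S6E.Ld4
import Pool.Agent.H7.S6.Lev

/-!
# Falling: the class half, from the frames, the turning and (NAT)
-/

set_option autoImplicit false

namespace Pool.S6C

open Pool.FALL

/-- **(FALL)** from the frames, the turning and (NAT). -/
theorem fall_nat (hFF : FFrStmt) (hT : TurFStmt) (hN : NATStmt) : FALLStmt :=
  fall_of hFF hT wfe_f act_f lev_thm (rowf_of (ldTwo_of hN))

end Pool.S6C
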